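import Mathlib

/-!
# Project BN (MP_a2f62e_al), part 1: reduced words, the Baxterised ladder in Hecke algebras

`A` is a Cartan matrix, `sr A i` the simple reflection, `wa A w` the product of the simple reflections of the word `w`
(applied to vectors), `rts A w` the list of the roots `β_k = s_{i_1} ⋯ s_{i_{k-1}} α_{i_k}` of the word `w = (i_1, …, i_N)`.
A word is called reduced (`Red`) if all its roots are `≥ 0`.

THEOREM (`StLADU`). Let `T_i` satisfy the quadratic and the braid relations of a Hecke algebra. There is a word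
`(i_1, …, i_N)` and `c_1, …, c_N > 0` such that `X = (c_1 + T_{i_1}) ⋯ (c_N + T_{i_N})` satisfies `T_i X = q_i X` for all `i`.
Idea: `c_k = (q_{i_k} - 1)/(E(β_k) - 1)`, `E(γ) = ∏ q_j ^ γ_j`, for a reduced word of the longest element (Yang-Baxter
equation: the product does not depend on the reduced word), and `c_1 = 1` since `E(α_i) = q_i`.
-/

set_option autoImplicit false

namespace Pool.Agent.Helper70.BN

/-- the simple reflection `s_i` of `ℤ^l`, `s_i v = v - (∑_j v_j A_{ji}) α_i` -/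
def sr {l : ℕ} (A : Fin l → Fin l → ℤ) (i : Fin l) (v : Fin l → ℤ) : Fin l → ℤ :=
  v - (∑ j, v j * A j i) • (Pi.single i 1 : Fin l → ℤ)

/-- the simple root `α_i` -/
def al {l : ℕ} (i : Fin l) : Fin l → ℤ := Pi.single i 1

/-- the action of a word -/
def wa {l : ℕ} (A : Fin l → Fin l → ℤ) : List (Fin l) → (Fin l → ℤ) → (Fin l → ℤ)
  | [], v => v
  | i :: w, v => sr A i (wa A w v)

/-- the roots of a word -/
def rts {l : ℕ} (A : Fin l → Fin l → ℤ) : List (Fin l) → List (Fin l → ℤ)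
  | [] => []
  | i :: w => al i :: (rts A w).map (sr A i)

/-- reduced words -/
def Red {l : ℕ} (A : Fin l → Fin l → ℤ) (w : List (Fin l)) : Prop := ∀ β ∈ rts A w, 0 ≤ β

/-- `A` is a Cartan matrix, symmetrised by `d`, with finite root system `Φ`, without triple bonds -/
structure RS {l : ℕ} (A : Fin l → Fin l → ℤ) (d : Fin l → ℤ) (Φ : Finset (Fin l → ℤ)) : Prop where
  diag : ∀ i, A i i = 2
  off : ∀ i j, i ≠ j → (A i j = 0 ∧ A j i = 0) ∨ (A i j = -1 ∧ A j i = -1) ∨ (A i j = -1 ∧ A j i = -2) ∨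
    (A i j = -2 ∧ A j i = -1)
  dpos : ∀ i, 0 < d i
  symm : ∀ i j, A i j * d j = A j i * d i
  ne : ∀ v ∈ Φ, v ≠ 0
  sign : ∀ v ∈ Φ, 0 ≤ v ∨ v ≤ 0
  stable : ∀ v ∈ Φ, ∀ i, sr A i v ∈ Φ
  simple : ∀ i, al i ∈ Φ
  reduced : ∀ (i : Fin l) (c : ℤ), c • (al i : Fin l → ℤ) ∈ Φ → c = 1 ∨ c = -1

/-- the alternating word `i, j, i, …` of length `m` -/
def alt {l : ℕ} (i j : Fin l) : ℕ → List (Fin l)
  | 0 => []
  | m + 1 => i :: alt j i m

/-- the order of `s_i s_j` (no triple bonds) -/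
def mm {l : ℕ} (A : Fin l → Fin l → ℤ) (i j : Fin l) : ℕ :=
  if A i j * A j i = 0 then 2 else if A i j * A j i = 1 then 3 else 4

/-! ### Basic facts -/

section basics

variable {l : ℕ} {A : Fin l → Fin l → ℤ}

theorem sr_eq (i : Fin l) (v : Fin l → ℤ) : sr A i v = v - (∑ j, v j * A j i) • al i := rfl

theorem sr_add (i : Fin l) (v w : Fin l → ℤ) : sr A i (v + w) = sr A i v + sr A i w := by
  simp only [sr, Pi.add_apply, add_mul, Finset.sum_add_distrib, add_smul]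
  abel

theorem sr_smul (i : Fin l) (c : ℤ) (v : Fin l → ℤ) : sr A i (c • v) = c • sr A i v := by
  simp only [sr, Pi.smul_apply, smul_eq_mul, smul_sub, smul_smul, mul_assoc, ← Finset.mul_sum]

theorem sr_neg (i : Fin l) (v : Fin l → ℤ) : sr A i (-v) = -sr A i v := by
  have := sr_smul (A := A) i (-1) v
  simpa using this

theorem sr_zero (i : Fin l) : sr A i 0 = 0 := by simp [sr]

/-- `s_i α_j = α_j - A_{ji} α_i` -/
theorem sr_al (i j : Fin l) : sr A i (al j) = al j - A j i • al i := by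
  have : (∑ k, (al j : Fin l → ℤ) k * A k i) = A j i := by
    rw [Finset.sum_eq_single j]
    · simp [al]
    · intro b _ hb
      simp [al, hb]
    · simp
  rw [sr_eq, this]

theorem sr_al_self (h : ∀ i, A i i = 2) (i : Fin l) : sr A i (al i) = -al i := by
  rw [sr_al, h, two_smul]; abel

theorem sr_sr (h : ∀ i, A i i = 2) (i : Fin l) (v : Fin l → ℤ) : sr A i (sr A i v) = v := by
  have h1 : sr A i (sr A i v) = sr A i (v + (-(∑ j, v j * A j i)) • al i) := by
    rw [sr_eq i v, sub_eq_add_neg, neg_smul]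
  rw [h1, sr_add, sr_smul, sr_al_self h, sr_eq]
  simp

theorem wa_nil (v : Fin l → ℤ) : wa A [] v = v := rfl

theorem wa_cons (i : Fin l) (w : List (Fin l)) (v : Fin l → ℤ) : wa A (i :: w) v = sr A i (wa A w v) := rfl

theorem wa_append (a b : List (Fin l)) (v : Fin l → ℤ) : wa A (a ++ b) v = wa A a (wa A b v) := by
  induction a with
  | nil => rfl
  | cons i a ih => rw [List.cons_append, wa_cons, ih, wa_cons]

theorem wa_add (w : List (Fin l)) (u v : Fin l → ℤ) : wa A w (u + v) = wa A w u + wa A w v := by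
  induction w with
  | nil => rfl
  | cons i w ih => rw [wa_cons, ih, sr_add, wa_cons, wa_cons]

theorem wa_smul (w : List (Fin l)) (c : ℤ) (v : Fin l → ℤ) : wa A w (c • v) = c • wa A w v := by
  induction w with
  | nil => rfl
  | cons i w ih => rw [wa_cons, ih, sr_smul, wa_cons]

theorem wa_neg (w : List (Fin l)) (v : Fin l → ℤ) : wa A w (-v) = -wa A w v := by
  have := wa_smul (A := A) w (-1) v
  simpa using this

theorem wa_zero (w : List (Fin l)) : wa A w 0 = 0 := by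
  induction w with
  | nil => rfl
  | cons i w ih => rw [wa_cons, ih, sr_zero]

theorem wa_reverse (h : ∀ i, A i i = 2) (w : List (Fin l)) (v : Fin l → ℤ) :
    wa A w (wa A w.reverse v) = v := by
  induction w generalizing v with
  | nil => rfl
  | cons i w ih => rw [List.reverse_cons, wa_append, wa_cons, ih, wa_cons, wa_nil, sr_sr h]

theorem reverse_wa (h : ∀ i, A i i = 2) (w : List (Fin l)) (v : Fin l → ℤ) :
    wa A w.reverse (wa A w v) = v := by
  have := wa_reverse h w.reverse v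
  rwa [List.reverse_reverse] at this

theorem wa_inj (h : ∀ i, A i i = 2) (w : List (Fin l)) : Function.Injective (wa A w) := by
  intro u v huv
  rw [← reverse_wa h w u, huv, reverse_wa h w v]

theorem sr_inj (h : ∀ i, A i i = 2) (i : Fin l) : Function.Injective (sr A i) := wa_inj h [i]

theorem wa_mem {d : Fin l → ℤ} {Φ : Finset (Fin l → ℤ)} (h : RS A d Φ) (w : List (Fin l)) {v : Fin l → ℤ}
    (hv : v ∈ Φ) : wa A w v ∈ Φ := by
  induction w with
  | nil => exact hv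
  | cons i w ih => exact h.stable _ ih i

theorem rts_cons (i : Fin l) (w : List (Fin l)) : rts A (i :: w) = al i :: (rts A w).map (sr A i) := rfl

theorem rts_append (a b : List (Fin l)) : rts A (a ++ b) = rts A a ++ (rts A b).map (wa A a) := by
  induction a with
  | nil =>
    have h1 : (wa A ([] : List (Fin l))) = id := rfl
    rw [h1, List.map_id]
    rfl
  | cons i a ih =>
    rw [List.cons_append, rts_cons, ih, rts_cons, List.map_append, List.map_map, List.cons_append]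
    rfl

theorem rts_length (w : List (Fin l)) : (rts A w).length = w.length := by
  induction w with
  | nil => rfl
  | cons i w ih => rw [rts_cons, List.length_cons, List.length_map, ih, List.length_cons]

theorem rts_mem {d : Fin l → ℤ} {Φ : Finset (Fin l → ℤ)} (h : RS A d Φ) (w : List (Fin l)) {β : Fin l → ℤ}
    (hβ : β ∈ rts A w) : β ∈ Φ := by
  induction w generalizing β with
  | nil => simp [rts] at hβ
  | cons i w ih =>
    rw [rts_cons, List.mem_cons, List.mem_map] at hβ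
    rcases hβ with rfl | ⟨γ, hγ, rfl⟩
    · exact h.simple i
    · exact h.stable _ (ih hγ) i

theorem al_nonneg (i : Fin l) : (0 : Fin l → ℤ) ≤ al i := by
  intro k
  by_cases h : k = i
  · subst h; simp [al]
  · simp [al, h]

theorem not_nonpos_of_nonneg {d : Fin l → ℤ} {Φ : Finset (Fin l → ℤ)} (h : RS A d Φ) {v : Fin l → ℤ}
    (hv : v ∈ Φ) (h0 : 0 ≤ v) : ¬ v ≤ 0 := fun h1 => h.ne v hv (le_antisymm h1 h0)

end basics

/-- the bilinear form `(α_i, α_j) = A_{ij} d_j` -/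
def bil {l : ℕ} (A : Fin l → Fin l → ℤ) (d : Fin l → ℤ) (v w : Fin l → ℤ) : ℤ :=
  ∑ i, ∑ j, v i * w j * (A i j * d j)

/-- RCONJ. A reflection is determined by its root.
PROOF. `bil` is symmetric (`RS.symm`), additive in both arguments; `bil v (α_i) = (∑_k v_k A_{ki}) d_i`, `bil α_i α_i = 2 d_i`.
`bil (s_i v) (s_i w) = bil v w`: with `p = ∑ v_k A_{ki}`, `r = ∑ w_k A_{ki}`: `bil (v - p α_i) (w - r α_i) = bil v w - r p d_i - p r d_i
+ 2 p r d_i`. So `wa A w` preserves `bil`. Let `wa A w α_j = α_i`. Then `2 d_i = 2 d_j`. `(∑_k (wa v)_k A_{ki}) d_i = bil (wa v) α_i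
= bil (wa v) (wa α_j) = bil v α_j = (∑_k v_k A_{kj}) d_j`, so the two sums are equal to `c`, and
`s_i (wa v) = wa v - c α_i = wa v - c (wa α_j) = wa (v - c α_j) = wa (s_j v)`. -/
def StRCONJ : Prop := ∀ (l : ℕ) (A : Fin l → Fin l → ℤ) (d : Fin l → ℤ) (Φ : Finset (Fin l → ℤ)), RS A d Φ →
  ∀ (w : List (Fin l)) (i j : Fin l), wa A w (al j) = al i → ∀ v, sr A i (wa A w v) = wa A w (sr A j v)

/-- RINV. Inversions.
PROOF. (1) `s_i v` and `v` differ only in the coordinate `i`. If `v` has a positive coordinate `k ≠ i` then so has `s_i v ∈ Φ`,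
which is `≥ 0` by `RS.sign`. Otherwise `v = c α_i` with `c > 0`, so `c = 1` by `RS.reduced`, excluded. (2), (3) induction
on `w` from the right (`List.reverseRecOn`): for `w = a ++ [i]`: `rts A w = rts A a ++ [wa A a α_i]` and `w.reverse = i :: a.reverse`,
`wa A a α_i ≥ 0`. For `γ ∈ Φ`, `γ ≥ 0`, put `δ = wa A a.reverse γ ∈ Φ`. By induction `δ ≤ 0 ↔ γ ∈ rts A a`. `s_i δ ≤ 0`: if `δ = α_i` then
`γ = wa A a α_i` and `s_i δ = -α_i ≤ 0`; if `δ ≥ 0`, `δ ≠ α_i` then `s_i δ ≥ 0` by (1); if `δ ≤ 0`: `δ ≠ -α_i`, for otherwise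
`γ = -wa A a α_i ≤ 0`; so `s_i δ = -s_i (-δ) ≤ 0`. Nodup: `wa A a α_i ∉ rts A a`, since `wa A a.reverse (wa A a α_i) = α_i` is not `≤ 0`. -/
def StRINV : Prop := ∀ (l : ℕ) (A : Fin l → Fin l → ℤ) (d : Fin l → ℤ) (Φ : Finset (Fin l → ℤ)), RS A d Φ →
  (∀ (i : Fin l), ∀ v ∈ Φ, 0 ≤ v → v ≠ al i → 0 ≤ sr A i v) ∧
  (∀ w : List (Fin l), Red A w → ∀ γ ∈ Φ, 0 ≤ γ → (wa A w.reverse γ ≤ 0 ↔ γ ∈ rts A w)) ∧
  (∀ w : List (Fin l), Red A w → (rts A w).Nodup)

/-- RRED. Every word is equivalent to a reduced word; exchange.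
PROOF. (1) `α_i ∉ rts A w`, `Red A w`: `Red A (i :: w)` by RINV (1). (2) Strong induction on the length; `w = i :: w₁`, `w₁'` reduced,
equivalent to `w₁`, not longer. If `α_i ∉ rts A w₁'` take `i :: w₁'` (1). Otherwise `w₁' = a ++ j :: b` with `wa A a α_j = α_i`
(induction on the list, or `rts_append` and `List.append_of_mem`), by RCONJ `s_i (wa a v) = wa a (s_j v)`, so
`wa (i :: w₁') = wa a s_j s_j wa b = wa (a ++ b)`, which is shorter; use induction. (3) `Red (i :: w) → Red w`: a root `β` of `w` with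
`s_i β = γ ≥ 0`, `γ ∈ Φ`, `γ ≠ α_i` by `Nodup` of `rts A (i :: w)`, so `β = s_i γ ≥ 0` by RINV (1). (4) If `w`, `w'` are reduced and
equivalent, then `rts A w` and `rts A w'` have the same elements (RINV (2); `wa w.reverse` and `wa w'.reverse` are equal as
inverses of the same map; roots are in `Φ` and `≥ 0`), and the same length (`Nodup`). (5) exchange: `w = a ++ j :: b`,
`wa A a α_j = α_i`; `w'` reduced and equivalent to `a ++ b` by (2); `wa (i :: w') = s_i wa a wa b = wa a s_j wa b = wa w`.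
`α_i ∉ rts A w'`: `wa w'.reverse α_i = wa w.reverse (s_i α_i) = -wa w.reverse α_i`, not `≤ 0` since `wa w.reverse α_i ≤ 0` is a root.
So `i :: w'` is reduced (1), of the length of `w` by (4). -/
def StRRED : Prop := ∀ (l : ℕ) (A : Fin l → Fin l → ℤ) (d : Fin l → ℤ) (Φ : Finset (Fin l → ℤ)), RS A d Φ →
  (∀ (i : Fin l) (w : List (Fin l)), Red A w → al i ∉ rts A w → Red A (i :: w)) ∧
  (∀ w : List (Fin l), ∃ w', Red A w' ∧ (∀ v, wa A w' v = wa A w v) ∧ w'.length ≤ w.length) ∧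
  (∀ (i : Fin l) (w : List (Fin l)), Red A (i :: w) → Red A w) ∧
  (∀ w w' : List (Fin l), Red A w → Red A w' → (∀ v, wa A w v = wa A w' v) →
    (∀ β, β ∈ rts A w ↔ β ∈ rts A w') ∧ w.length = w'.length) ∧
  (∀ (i : Fin l) (w : List (Fin l)), Red A w → al i ∈ rts A w →
    ∃ w', Red A (i :: w') ∧ (∀ v, wa A (i :: w') v = wa A w v) ∧ w'.length + 1 = w.length)

/-- RPRE. Initial segments.
PROOF. Induction on `p`. `p = i :: p'`, `α_i ∈ rts A w`: exchange (RRED (5)) gives `w₁` with `i :: w₁` reduced, equivalent to `w`. `p'` and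
`w₁` are reduced (RRED (3)). `β ∈ rts A p'`: `s_i β ∈ rts A p ⊆ rts A w = rts A (i :: w₁)` (RRED (4)), and `s_i β ≠ α_i` (`Nodup`
of `rts A p`, RINV (3)), so `s_i β ∈ (rts A w₁).map s_i`, `β ∈ rts A w₁` (`sr_inj`). Induction: `w'` with `p' ++ w'` reduced,
equivalent to `w₁`. `α_i ∉ rts A (p' ++ w')`: otherwise `α_i ∈ rts A w₁` (RRED (4)), `wa (i :: w₁).reverse α_i ≤ 0`
(RINV (2)) equals `wa w₁.reverse (s_i α_i) = -wa w₁.reverse α_i` and also `wa w₁.reverse α_i ≤ 0`, contradiction. So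
`i :: (p' ++ w')` is reduced (RRED (1)). -/
def StRPRE : Prop := ∀ (l : ℕ) (A : Fin l → Fin l → ℤ) (d : Fin l → ℤ) (Φ : Finset (Fin l → ℤ)), RS A d Φ →
  ∀ p w : List (Fin l), Red A p → Red A w → (∀ β ∈ rts A p, β ∈ rts A w) →
  ∃ w', Red A (p ++ w') ∧ ∀ v, wa A (p ++ w') v = wa A w v

/-- RTWO. Rank two.
PROOF. By `sr_al`, `sr_add`, `sr_smul`: `s_i (x α_i + y α_j) = (-x - A_{ji} y) α_i + y α_j`; explicit computation in the four cases of
`RS.off`. `A_{ji} = -2`, `A_{ij} = -1`: `rts (i j i j) = α_i, 2 α_i + α_j, α_i + α_j, α_j` and `rts (j i j i) = α_j, α_i + α_j,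
2 α_i + α_j, α_i`. Equality of `wa (alt i j m)` and `wa (alt j i m)`: with `p = ∑ v_k A_{ki}`, `r = ∑ v_k A_{kj}` every `wa` of a word in
`i, j` applied to `v` is `v - x α_i - y α_j` with explicit `x, y` (`sr A i (v - x α_i - y α_j) = v - (p - x - A_{ji} y) α_i - y α_j`). -/
def StRTWO : Prop := ∀ (l : ℕ) (A : Fin l → Fin l → ℤ) (d : Fin l → ℤ) (Φ : Finset (Fin l → ℤ)), RS A d Φ →
  ∀ i j : Fin l, i ≠ j →
  (∀ v, wa A (alt i j (mm A i j)) v = wa A (alt j i (mm A i j)) v) ∧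
  ((A i j = 0 ∧ A j i = 0 ∧ mm A i j = 2 ∧ rts A (alt i j 2) = [al i, al j] ∧ rts A (alt j i 2) = [al j, al i]) ∨
    (A i j = -1 ∧ A j i = -1 ∧ mm A i j = 3 ∧ rts A (alt i j 3) = [al i, al i + al j, al j] ∧
      rts A (alt j i 3) = [al j, al i + al j, al i]) ∨
    (A i j = -1 ∧ A j i = -2 ∧ mm A i j = 4 ∧
      rts A (alt i j 4) = [al i, (2 : ℤ) • al i + al j, al i + al j, al j] ∧
      rts A (alt j i 4) = [al j, al i + al j, (2 : ℤ) • al i + al j, al i]) ∨
    (A i j = -2 ∧ A j i = -1 ∧ mm A i j = 4 ∧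
      rts A (alt i j 4) = [al i, al i + al j, al i + (2 : ℤ) • al j, al j] ∧
      rts A (alt j i 4) = [al j, al i + (2 : ℤ) • al j, al i + al j, al i]))

/-- RSTR. Two left descents.
PROOF. By RTWO every root of `alt i j m` is `x α_i + y α_j`, `x, y ≥ 0`, so it is `≥ 0` (`Red`), and `wa w.reverse` of it is
`x wa w.reverse α_i + y wa w.reverse α_j ≤ 0` by RINV (2), so it is in `rts A w`. RPRE with `p = alt i j m` gives `w'`. The word
`alt j i m ++ w'`: `rts (alt j i m ++ w') = rts (alt j i m) ++ (rts w').map (wa (alt j i m))` and `wa (alt j i m) = wa (alt i j m)`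
(RTWO), so it is reduced and equivalent too. -/
def StRSTR : Prop := ∀ (l : ℕ) (A : Fin l → Fin l → ℤ) (d : Fin l → ℤ) (Φ : Finset (Fin l → ℤ)), RS A d Φ →
  ∀ (i j : Fin l) (w : List (Fin l)), i ≠ j → Red A w → al i ∈ rts A w → al j ∈ rts A w →
  ∃ w', Red A (alt i j (mm A i j) ++ w') ∧ Red A (alt j i (mm A i j) ++ w') ∧
    (∀ v, wa A (alt i j (mm A i j) ++ w') v = wa A w v) ∧ (∀ v, wa A (alt j i (mm A i j) ++ w') v = wa A w v)

/-- RLONG. The longest element.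
PROOF. The number of elements of a reduced word is at most `Φ.card` (`rts` is a list without repetitions in `Φ`, RINV). Take
a reduced word `w` of maximal length. For every `i`, `α_i ∈ rts A w`, otherwise `i :: w` is reduced (RRED (1)). RRED (5) gives
the reduced words `i :: w'` equivalent to `w`. -/
def StRLONG : Prop := ∀ (l : ℕ) (A : Fin l → Fin l → ℤ) (d : Fin l → ℤ) (Φ : Finset (Fin l → ℤ)), RS A d Φ →
  ∃ w, Red A w ∧ ∀ i, ∃ w', Red A (i :: w') ∧ ∀ v, wa A (i :: w') v = wa A w v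

/-! ### Hecke algebras -/

/-- `E(γ) = ∏ q_j ^ γ_j` -/
noncomputable def EE {l : ℕ} (q : Fin l → ℕ) (γ : Fin l → ℤ) : ℝ := ∏ j, (q j : ℝ) ^ (γ j)

/-- `c(i, γ) = (q_i - 1)/(E(γ) - 1)` -/
noncomputable def cc {l : ℕ} (q : Fin l → ℕ) (i : Fin l) (γ : Fin l → ℤ) : ℝ := ((q i : ℝ) - 1) / (EE q γ - 1)

/-- `∏ (c_k + T_{i_k})` -/
noncomputable def PR {l : ℕ} {H : Type} [Ring H] [Algebra ℝ H] (T : Fin l → H) (ws : List (Fin l × ℝ)) : H :=
  (ws.map fun p => algebraMap ℝ H p.2 + T p.1).prod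

/-- the list `(i_k, c(i_k, u β_k))` of a word -/
noncomputable def WC {l : ℕ} (A : Fin l → Fin l → ℤ) (q : Fin l → ℕ) (u : (Fin l → ℤ) → (Fin l → ℤ))
    (w : List (Fin l)) : List (Fin l × ℝ) :=
  (w.zip (rts A w)).map fun p => (p.1, cc q p.1 (u p.2))

/-- YB3. The Yang-Baxter equation for `m = 3`.
PROOF. `a = (q-1)/(x-1)`, `b = (q-1)/(xy-1)`, `c = (q-1)/(y-1)` satisfy `a c = b (a + c + q - 1)` (`field_simp; ring`). Expand:
`(a + S)(b + T)(c + S) = abc + ab S + ac T + a TS + bc S + b SS + c ST + STS`, `SS = q + (q-1) S`;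
`(c + T)(b + S)(a + T)` similarly; compare, using `STS = TST`. (Scalars are central: `Algebra.commutes`; or write everything with
`•` and `1`: `simp only [Algebra.algebraMap_eq_smul_one, mul_add, add_mul, smul_mul_assoc, mul_smul_comm, one_mul, mul_one]`
and compare coefficients of `1, S, T, ST, TS, STS` with `module`.) -/
def StYB3 : Prop := ∀ (H : Type) [Ring H] [Algebra ℝ H] (S T : H) (q x y : ℝ),
  S * S = algebraMap ℝ H q + algebraMap ℝ H (q - 1) * S → T * T = algebraMap ℝ H q + algebraMap ℝ H (q - 1) * T →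
  S * T * S = T * S * T → x ≠ 1 → y ≠ 1 → x * y ≠ 1 →
  (algebraMap ℝ H ((q - 1) / (x - 1)) + S) * (algebraMap ℝ H ((q - 1) / (x * y - 1)) + T) *
      (algebraMap ℝ H ((q - 1) / (y - 1)) + S) =
    (algebraMap ℝ H ((q - 1) / (y - 1)) + T) * (algebraMap ℝ H ((q - 1) / (x * y - 1)) + S) *
      (algebraMap ℝ H ((q - 1) / (x - 1)) + T)

/-- YB4. The Yang-Baxter equation for `m = 4`.
PROOF. `a = (q-1)/(x-1)`, `b = (r-1)/(x²y-1)`, `c = (q-1)/(xy-1)`, `d = (r-1)/(y-1)` satisfy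
`a d = a b + b c + c d + b (q-1) + c (r-1)`: divide by `(q-1)(r-1)` (the case `q = 1` or `r = 1` by the same `field_simp; ring`):
`1/((x-1)(y-1)) = 1/((x-1)(x²y-1)) + 1/((x²y-1)(xy-1)) + 1/((xy-1)(y-1)) + 1/(x²y-1) + 1/(xy-1)`. Expand both sides of
`(a + S)(b + T)(c + S)(d + T) = (d + T)(c + S)(b + T)(a + S)`: the coefficients of `1`, `ST…` words agree by the identity, `SS = q + (q-1) S`,
`TT = r + (r-1) T`, `STST = TSTS`. (The difference is a multiple of `ST - TS` ... : compare the coefficients of `1, S, T, ST, TS, STS, TST,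
STST`.) -/
def StYB4 : Prop := ∀ (H : Type) [Ring H] [Algebra ℝ H] (S T : H) (q r x y : ℝ),
  S * S = algebraMap ℝ H q + algebraMap ℝ H (q - 1) * S → T * T = algebraMap ℝ H r + algebraMap ℝ H (r - 1) * T →
  S * T * S * T = T * S * T * S → x ≠ 1 → y ≠ 1 → x * y ≠ 1 → x ^ 2 * y ≠ 1 →
  (algebraMap ℝ H ((q - 1) / (x - 1)) + S) * (algebraMap ℝ H ((r - 1) / (x ^ 2 * y - 1)) + T) *
      (algebraMap ℝ H ((q - 1) / (x * y - 1)) + S) * (algebraMap ℝ H ((r - 1) / (y - 1)) + T) =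
    (algebraMap ℝ H ((r - 1) / (y - 1)) + T) * (algebraMap ℝ H ((q - 1) / (x * y - 1)) + S) *
      (algebraMap ℝ H ((r - 1) / (x ^ 2 * y - 1)) + T) * (algebraMap ℝ H ((q - 1) / (x - 1)) + S)

/-- the relations of the Hecke algebra with Coxeter matrix `m` and parameters `q` -/
def Hecke {l : ℕ} {H : Type} [Ring H] [Algebra ℝ H] (m : Fin l → Fin l → ℕ) (q : Fin l → ℕ) (T : Fin l → H) : Prop :=
  (∀ i, T i * T i = algebraMap ℝ H (q i : ℝ) + algebraMap ℝ H ((q i : ℝ) - 1) * T i) ∧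
  ∀ i j, i ≠ j → ((alt i j (m i j)).map T).prod = ((alt j i (m i j)).map T).prod

/-- RYB. PROOF. `E(γ + δ) = E(γ) E(δ)`, `E(k γ) = E(γ)^k`, `E(γ) > 1` for `γ ≥ 0`, `γ ≠ 0` (`q_j ≥ 2`). With `x = E(u α_i)`, `y = E(u α_j)`,
RTWO: the lists `WC A q u (alt i j m)` and `WC A q u (alt j i m)` are explicit; `u = wa A z` is additive. All `u β`, `β` a root of `alt i j m`,
are `≥ 0` and `≠ 0` (`wa_mem`, `RS.ne`), so `x, y, xy, x²y` (`xy²`) are `> 1`. Cases `m = 2` (`T_i T_j = T_j T_i`: scalars are central),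
`m = 3` (YB3, `q_i = q_j`), `m = 4` (YB4 with `(S, T) = (T_i, T_j)`, or `(T_j, T_i)` in the case `A_{ij} = -2`). -/
def StRYB : Prop := ∀ (l : ℕ) (A : Fin l → Fin l → ℤ) (d : Fin l → ℤ) (Φ : Finset (Fin l → ℤ)), RS A d Φ →
  ∀ (q : Fin l → ℕ), (∀ i, 2 ≤ q i) → (∀ i j, i ≠ j → mm A i j = 3 → q i = q j) →
  ∀ (H : Type) [Ring H] [Algebra ℝ H] (T : Fin l → H), Hecke (mm A) q T → ∀ (i j : Fin l), i ≠ j →
  ∀ z : List (Fin l), (∀ β ∈ rts A (alt i j (mm A i j)), 0 ≤ wa A z β) →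
  PR T (WC A q (wa A z) (alt i j (mm A i j))) = PR T (WC A q (wa A z) (alt j i (mm A i j)))

/-- RMAT. The product does not depend on the reduced word (Matsumoto's theorem and the Yang-Baxter equation).
PROOF. `WC A q u (a ++ b) = WC A q u a ++ WC A q (u ∘ wa A a) b` (`rts_append`), `PR T (x ++ y) = PR T x * PR T y`. Induction on the
length `n` of `w` (`= ` length of `w'`, RRED (4)), for all `w, w', z`. `n = 0`: both are empty. Both words begin with `i`: `w = i :: a`,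
`w' = i :: b`; `a, b` are reduced (RRED (3)), equivalent (`sr_inj`), `z' = z ++ [i]`: for `β ∈ rts A a`, `wa A (z ++ [i]) β = wa A z (s_i β) ≥ 0`;
induction. `w = i :: a`, `w' = j :: b`, `i ≠ j`: `α_i ∈ rts A w`, `α_j ∈ rts A w' = rts A w` (RRED (4)), RSTR gives `w''` with
`w₁ = alt i j m ++ w''` and `w₂ = alt j i m ++ w''` reduced and equivalent to `w` (of the same length, RRED (4)). `m ≥ 2`, so
`w₁` begins with `i`, `w₂` with `j`: by the case of equal first letters `PR w = PR w₁` and `PR w₂ = PR w'`. `PR w₁ = PR w₂`: the first parts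
are equal by RYB (roots of `alt i j m` are roots of `w₁`, so of `w`), the second parts are equal since `wa (alt i j m) = wa (alt j i m)`
(RTWO). -/
def StRMAT : Prop := ∀ (l : ℕ) (A : Fin l → Fin l → ℤ) (d : Fin l → ℤ) (Φ : Finset (Fin l → ℤ)), RS A d Φ →
  ∀ (q : Fin l → ℕ), (∀ i, 2 ≤ q i) → (∀ i j, i ≠ j → mm A i j = 3 → q i = q j) →
  ∀ (H : Type) [Ring H] [Algebra ℝ H] (T : Fin l → H), Hecke (mm A) q T →
  ∀ (w w' : List (Fin l)), Red A w → Red A w' → (∀ v, wa A w v = wa A w' v) →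
  ∀ z : List (Fin l), (∀ β ∈ rts A w, 0 ≤ wa A z β) →
  PR T (WC A q (wa A z) w) = PR T (WC A q (wa A z) w')

/-- RLAD. The ladder, crystallographic case.
PROOF. `w` from RLONG, `ws = WC A q (wa A []) w` (`wa A [] = id`); its first components are `w` (`rts_length`), its second components
`(q_i - 1)/(E(β) - 1)` are positive: `q_i ≥ 2`, `β ≥ 0` is a root, so `E(β) > 1`. `i` given: `w' ` with `i :: w'` reduced and equivalent to `w`, RMAT with
`z = []`: `PR ws = PR (WC (i :: w')) = (c + T_i) PR (...)`, `c = (q_i - 1)/(E(α_i) - 1) = 1` since `E(α_i) = q_i`.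
`T_i (1 + T_i) = T_i + q_i + (q_i - 1) T_i = q_i (1 + T_i)`. -/
def StRLAD : Prop := ∀ (l : ℕ) (A : Fin l → Fin l → ℤ) (d : Fin l → ℤ) (Φ : Finset (Fin l → ℤ)), RS A d Φ →
  ∀ (q : Fin l → ℕ), (∀ i, 2 ≤ q i) → (∀ i j, i ≠ j → mm A i j = 3 → q i = q j) →
  ∀ (H : Type) [Ring H] [Algebra ℝ H] (T : Fin l → H), Hecke (mm A) q T →
  ∃ ws : List (Fin l × ℝ), Red A (ws.map Prod.fst) ∧ (∀ p ∈ ws, 0 < p.2) ∧
    ∀ i, T i * PR T ws = algebraMap ℝ H (q i : ℝ) * PR T ws

/-- RSWP. The sweep in rank two (any `m`).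
PROOF. Put `u_0 = 1`, `u_k` = product of the alternating word of length `k` whose LAST letter is `j` (`u_1 = T_j`, `u_2 = T_i T_j`,
`u_{k+1} = T_{s(k+1)} u_k`, `s(k) = j` for `k` odd, `i` for `k` even), `v_k = u_k (1 + T_i)`, `D_k = v_0 + ⋯ + v_{k-1}`. FACTS.
(a) `T_{s(k+1)} v_k = v_{k+1}`, `T_{s(k)} v_k = q v_{k-1} + (q - 1) v_k` (`q = q_{s(k)}`, `k ≥ 1`), so `T_{s(k)} (v_{k-1} + v_k) = q (v_{k-1} + v_k)`;
`T_i v_0 = q_i v_0`. (b) `T_{s(k+1)} D_k = q_{s(k+1)} D_k` for `k ≥ 1`: `k - 1` and `k + 1` have the same parity, so `D_k` is the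
sum of the pairs `v_{k-2} + v_{k-1}`, `v_{k-4} + v_{k-3}`, … and possibly `v_0` alone, in which case `k` is odd and `s(k+1) = i`. (Induction:
`D_{k+2} = D_k + (v_k + v_{k+1})`.) (c) for `γ > 1`, `c = q_s/(γ - 1)`, `s = s(k+1)`: `(c + T_s)(D_k + γ v_k) = γ c (D_{k+1} + γ' v_{k+1})` with
`γ' = (γ - 1)/q_s` (as `c + q_s = γ c`). Define `γ_{m-1} = 1`, `γ_k = 1 + q_{s(k+1)} γ_{k+1}`. Then the product
`X = (c_{m-1} + T_{s(m-1)}) ⋯ (c_1 + T_{s(1)}) (1 + T_i)` with `c_1 = 1/γ_1`: `(c_1 + T_j) v_0 = c_1 (D_1 + γ_1 v_1)`, equals a positive multiple of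
`D_{m-1} + v_{m-1} = D_m`. (d) `T_{s(m)} v_{m-1} = u_m (1 + T_i)`, `u_m = alt`-product of length `m` with last letter `j`, which by the
braid relation is the one with last letter `i`, which is `u_{m-1} T_i`; so `T_{s(m)} v_{m-1} = u_{m-1} T_i (1 + T_i) = q_i v_{m-1}`.
`q_{s(m)} = q_i` (`m` even: `s(m) = i`; `m` odd: `q_i = q_j`). With `T_{s(m)} D_{m-1} = q D_{m-1}` (b): `T_{s(m)} D_m = q D_m`; and
`T_{s(m-1)} D_m = q D_m` by (b)'s argument (pairs `v_{m-2} + v_{m-1}`, …; `m ≥ 2`). The word of `X` (from left to right) is an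
alternating word of length `m`, `alt i j m` or `alt j i m`. -/
def StRSWP : Prop := ∀ (l : ℕ) (i j : Fin l), i ≠ j → (∀ k, k = i ∨ k = j) → ∀ (m : ℕ), 2 ≤ m →
  ∀ (q : Fin l → ℕ), (∀ i, 2 ≤ q i) → (Odd m → q i = q j) →
  ∀ (H : Type) [Ring H] [Algebra ℝ H] (T : Fin l → H),
  (∀ i, T i * T i = algebraMap ℝ H (q i : ℝ) + algebraMap ℝ H ((q i : ℝ) - 1) * T i) →
  ((alt i j m).map T).prod = ((alt j i m).map T).prod →
  ∃ ws : List (Fin l × ℝ), (ws.map Prod.fst = alt i j m ∨ ws.map Prod.fst = alt j i m) ∧ (∀ p ∈ ws, 0 < p.2) ∧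
    ∀ i, T i * PR T ws = algebraMap ℝ H (q i : ℝ) * PR T ws

/-- the type is crystallographic without triple bonds, or of rank two; `K` bounds `q_w` for all reduced words `w` -/
def Typ {l : ℕ} (m : Fin l → Fin l → ℕ) (q : Fin l → ℕ) (K : ℕ) : Prop :=
  (∃ (A : Fin l → Fin l → ℤ) (d : Fin l → ℤ) (Φ : Finset (Fin l → ℤ)), RS A d Φ ∧
    (∀ i j, i ≠ j → m i j = mm A i j) ∧ (∀ i j, i ≠ j → m i j = 3 → q i = q j) ∧
    ∀ w : List (Fin l), Red A w → (w.map q).prod ≤ K) ∨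
  ∃ i j : Fin l, i ≠ j ∧ (∀ k, k = i ∨ k = j) ∧ 2 ≤ m i j ∧ m j i = m i j ∧ (Odd (m i j) → q i = q j) ∧
    ((alt i j (m i j)).map q).prod ≤ K ∧ ((alt j i (m i j)).map q).prod ≤ K

/-- LADU. PROOF. The two cases of `Typ`: RLAD (the relations `Hecke m q T` and `Hecke (mm A) q T` agree, as only `i ≠ j` occurs) and
RSWP. -/
def StLADU : Prop := ∀ (l : ℕ) (m : Fin l → Fin l → ℕ) (q : Fin l → ℕ) (K : ℕ), Typ m q K → (∀ i, 2 ≤ q i) →
  ∀ (H : Type) [Ring H] [Algebra ℝ H] (T : Fin l → H), Hecke m q T →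
  ∃ ws : List (Fin l × ℝ), ((ws.map Prod.fst).map q).prod ≤ K ∧ (∀ p ∈ ws, 0 < p.2) ∧
    ∀ i, T i * PR T ws = algebraMap ℝ H (q i : ℝ) * PR T ws

end Pool.Agent.Helper70.BN
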