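import Pool.Agent.Helper70.BN.St2

set_option autoImplicit false

namespace Pool.Agent.Helper70.BN

open Pool.Agent.Helper75.MX Pool.Agent.Helper70.ML

theorem hBSTP (hAVG : StAVG) (hBAVG : StBAVG) : StBSTP := by
  intro G _ _ B R n q c k hq hc hRB hM hb f hf
  have hcq : 0 < c + q := by linarith
  set p : ℝ := q / (c + q) with hp
  have hp0 : 0 ≤ p := by positivity
  have hp1 : p ≤ 1 := by rw [hp, div_le_one hcq]; linarith
  have h1 : Reach 1 f (lz n p f) := Reach.step hp0 hp1 f
  have h2 : Reach k (lz n p f) (avg R (lz n p f)) := hAVG G R k hM (lz n p f)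
  obtain ⟨-, hfix, hadd, hsmul, -, -, -⟩ := hBAVG G R
  obtain ⟨-, -, -, -, -, -, hsub⟩ := hBAVG G B
  have h3 : avg R f = f := hfix f (hRB.trans hf)
  have h4 : avg B (L n f) = avg R (L n f) := by
    apply hsub R (L n f) hRB
    intro b hbB
    obtain ⟨r, hr, hr2⟩ := hb b hbB
    refine ⟨r, hr, ?_⟩
    rw [mem_stab_L]
    exact hf hr2
  have h5 : avg R (lz n p f) = (c + q)⁻¹ • (c • f + q • avg B (L n f)) := by
    unfold lz
    rw [hadd, hsmul, hsmul, h3, ← h4, smul_add, smul_smul, smul_smul]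
    congr 2
    · rw [hp]; field_simp; ring
    · rw [hp]; field_simp
  rw [← h5]
  exact h1.trans h2

end Pool.Agent.Helper70.BN
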