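import Pool.Agent.Helper70.BN.St1

set_option autoImplicit false

namespace Pool.Agent.Helper70.BN

theorem hRPRE (hRINV : StRINV) (hRRED : StRRED) : StRPRE := by
  intro l A d Φ hS p
  obtain ⟨-, -, hnod⟩ := hRINV l A d Φ hS
  obtain ⟨h1, -, h3, h4, h5⟩ := hRRED l A d Φ hS
  induction p with
  | nil => intro w _ hw _; exact ⟨w, hw, fun v => rfl⟩
  | cons i p ih =>
    intro w hp hw hsub
    have hi : al i ∈ rts A w := hsub _ (by rw [rts_cons]; exact List.mem_cons_self)
    obtain ⟨w1, hR1, hwa1, -⟩ := h5 i w hw hi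
    have hRp := h3 i p hp
    have hRw1 := h3 i w1 hR1
    have hset := (h4 w (i :: w1) hw hR1 (fun v => (hwa1 v).symm)).1
    have hnp := hnod _ hp
    rw [rts_cons, List.nodup_cons] at hnp
    have hsub' : ∀ β ∈ rts A p, β ∈ rts A w1 := by
      intro β hβ
      have hm : sr A i β ∈ (rts A p).map (sr A i) := List.mem_map_of_mem hβ
      have h6 : sr A i β ∈ rts A w := hsub _ (by rw [rts_cons]; exact List.mem_cons_of_mem _ hm)
      have h7 := (hset _).1 h6
      rw [rts_cons, List.mem_cons] at h7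
      rcases h7 with h7 | h7
      · exact absurd (h7 ▸ hm) hnp.1
      · obtain ⟨γ, hγ, hγ2⟩ := List.mem_map.1 h7
        rwa [sr_inj hS.diag i hγ2] at hγ
    obtain ⟨w', hR', hwa'⟩ := ih w1 hRp hRw1 hsub'
    have hni : al i ∉ rts A (p ++ w') := by
      intro hc
      have h8 : al i ∈ rts A w1 := ((h4 (p ++ w') w1 hR' hRw1 hwa').1 _).1 hc
      have h9 : sr A i (al i) ∈ rts A (i :: w1) := by
        rw [rts_cons]
        exact List.mem_cons_of_mem _ (List.mem_map_of_mem h8)
      have h10 := hR1 _ h9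
      rw [sr_al_self hS.diag] at h10
      have h11 : (al i : Fin l → ℤ) ≤ 0 := by
        have := neg_nonneg.1 h10
        exact this
      exact not_nonpos_of_nonneg hS (hS.simple i) (al_nonneg i) h11
    refine ⟨w', ?_, ?_⟩
    · rw [List.cons_append]; exact h1 i _ hR' hni
    · intro v
      rw [List.cons_append, wa_cons, hwa', ← wa_cons, hwa1]

end Pool.Agent.Helper70.BN
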