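import Pool.Agent.Helper34.BN.M_RCONJ
import Pool.Agent.Helper32.BN.M_RINV
import Pool.Agent.Helper37.BN.M_RRED
import Pool.Agent.Helper70.BN.M_RPRE
import Pool.Agent.Helper61.BN.M_RTWO
import Pool.Agent.Helper57.BN.M_RSTR
import Pool.Agent.Helper95.BN.M_RLONG
import Pool.Agent.Helper35.BN.M_YB3
import Pool.Agent.Helper55.BN.M_YB4
import Pool.Agent.Helper88.BN.M_RYB
import Pool.Agent.Helper94.BN.M_RMAT
import Pool.Agent.Helper36.BN.M_RLAD
import Pool.Agent.Helper7.BN.M_RSWP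
import Pool.Agent.Helper44.BN.M_LADU
import Pool.Agent.Helper99.BN.M_BAVG
import Pool.Agent.Helper27.BN.M_BQUAD
import Pool.Agent.Helper71.BN.M_BBRD
import Pool.Agent.Helper15.BN.M_BHEC
import Pool.Agent.Helper70.BN.M_BSTP
import Pool.Agent.Helper87.BN.M_BFOL
import Pool.Agent.Helper42.BN.M_BTOR
import Pool.Agent.Helper2.BN.M_BINV
import Pool.Agent.Helper40.BN.M_BCST
import Pool.Agent.Helper57.BN.M_LIEP
import Pool.Agent.Helper45.BN.M_NBRU
import Pool.Agent.Helper36.BN.M_NPRD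
import Pool.Agent.Helper22.BN.M_NGEO
import Pool.Agent.Helper71.BN.M_NCRY
import Pool.Agent.Helper10.BN.M_NDIH
import Pool.Agent.Helper55.BN.M_NSTD
import Pool.Agent.Helper38.ML.M_AVG

/-!
# Project BN (MP_a2f62e_al): assembly
-/

set_option autoImplicit false

namespace Pool.Agent.Helper70.BN

open Pool.Agent.Helper75.MX Pool.Agent.Helper70.ML

theorem pRCONJ : StRCONJ := Pool.Agent.Helper34.BN.hRCONJ
theorem pRINV : StRINV := Pool.Agent.Helper32.BN.hRINV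
theorem pRRED : StRRED := Pool.Agent.Helper37.BN.hRRED pRCONJ pRINV
theorem pRPRE : StRPRE := Pool.Agent.Helper70.BN.hRPRE pRINV pRRED
theorem pRTWO : StRTWO := Pool.Agent.Helper61.BN.hRTWO
theorem pRSTR : StRSTR := Pool.Agent.Helper57.BN.hRSTR pRINV pRPRE pRTWO
theorem pRLONG : StRLONG := Pool.Agent.Helper95.BN.hRLONG pRINV pRRED
theorem pYB3 : StYB3 := Pool.Agent.Helper35.BN.hYB3
theorem pYB4 : StYB4 := Pool.Agent.Helper55.BN.hYB4
theorem pRYB : StRYB := Pool.Agent.Helper88.BN.hRYB pRTWO pYB3 pYB4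
theorem pRMAT : StRMAT := Pool.Agent.Helper94.BN.hRMAT pRRED pRSTR pRTWO pRYB
theorem pRLAD : StRLAD := Pool.Agent.Helper36.BN.hRLAD pRLONG pRMAT
theorem pRSWP : StRSWP := Pool.Agent.Helper7.BN.hRSWP
theorem pLADU : StLADU := Pool.Agent.Helper44.BN.hLADU pRLAD pRSWP
theorem pAVG : StAVG := Pool.Agent.Helper38.ML.hAVG
theorem pBAVG : StBAVG := Pool.Agent.Helper99.BN.hBAVG
theorem pBQUAD : StBQUAD := Pool.Agent.Helper27.BN.hBQUAD pBAVG
theorem pBBRD : StBBRD := Pool.Agent.Helper71.BN.hBBRD pBAVG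
theorem pBHEC : StBHEC := Pool.Agent.Helper15.BN.hBHEC pBAVG pBQUAD pBBRD
theorem pBSTP : StBSTP := Pool.Agent.Helper70.BN.hBSTP pAVG pBAVG
theorem pBFOL : StBFOL := Pool.Agent.Helper87.BN.hBFOL
theorem pBTOR : StBTOR := Pool.Agent.Helper42.BN.hBTOR pAVG pBAVG
theorem pBINV : StBINV := Pool.Agent.Helper2.BN.hBINV pBAVG
theorem pBCST : StBCST := Pool.Agent.Helper40.BN.hBCST
theorem pLIE : StLIE :=
  Pool.Agent.Helper57.BN.hLIEP pLADU pAVG pBAVG pBHEC pBSTP pBFOL pBTOR pBINV pBCST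
theorem pNBRU : StNBRU := Pool.Agent.Helper45.BN.hNBRU
theorem pNPRD : StNPRD := Pool.Agent.Helper36.BN.hNPRD pNBRU
theorem pNGEO : StNGEO := Pool.Agent.Helper22.BN.hNGEO pNBRU pNPRD
theorem pNCRY : StNCRY := Pool.Agent.Helper71.BN.hNCRY pRRED pRTWO
theorem pNDIH : StNDIH := Pool.Agent.Helper10.BN.hNDIH
theorem pNSTD : StNSTD := Pool.Agent.Helper55.BN.hNSTD pNPRD pNGEO pNCRY pNDIH

/-- **Groups with a BN pair** (`LieT`) mix in at most `(12 a + 1) log₂ |Q|` lazy steps. -/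
theorem lieT_mix (a : ℕ) (Q : Type) [Group Q] [Finite Q] (h : LieT a Q) :
    ∃ k : ℕ, Mix Q k ∧ 2 ^ k ≤ Nat.card Q ^ (12 * a + 1) := pLIE a Q (pNSTD a Q h)

end Pool.Agent.Helper70.BN
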