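import Pool.Agent.Helper75.MX.Final
import Pool.Agent.Helper70.BN.St1

/-!
# Project BN (MP_a2f62e_al): the class of groups

`LieBN a Q`: the finite group `Q` has a subgroup `B` and elements `n_1, …, n_l` with the properties of a BN pair that are
used (with parameters `q_i = |B : B ∩ n_i B n_i⁻¹|`), a crystallographic Weyl group without triple bonds or rank two,
solvable subgroups `R_i ≤ B` without nontrivial quotient of odd order with `B = R_i (B ∩ n_i B n_i⁻¹)`, and solvable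
subgroups `L_j` without nontrivial quotient of odd order such that `B` is generated by subgroups `A_j ≤ B ∩ L_j`, where `A_j`
normalises `L_i` for `i < j`.
-/

set_option autoImplicit false

namespace Pool.Agent.Helper70.BN

open Pool.Agent.Helper75.MX

/-- `x` is in the double coset `B w B` -/
def DC {G : Type} [Group G] (B : Subgroup G) (w x : G) : Prop := ∃ b ∈ B, ∃ b' ∈ B, x = b * w * b'

/-- `x` is in the product `B g_1 B g_2 B ⋯ g_m B` -/
def PB {G : Type} [Group G] (B : Subgroup G) : List G → G → Prop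
  | [], x => x ∈ B
  | g :: gs, x => ∃ b ∈ B, ∃ y, PB B gs y ∧ x = b * g * y

/-- solvable, without nontrivial quotient of odd order -/
def STS (K : Type) [Group K] : Prop :=
  Group.IsSolvable K ∧ ∀ N : Subgroup K, N.Normal → Odd N.index → N = ⊤

/-- the class of groups (see the head of the file) -/
def LieBN (a : ℕ) (Q : Type) [Group Q] : Prop :=
  ∃ (l : ℕ) (B : Subgroup Q) (n : Fin l → Q) (q : Fin l → ℕ) (m : Fin l → Fin l → ℕ),
    (∀ i, n i * n i ∈ B) ∧
    (∀ i, ∀ b ∈ B, n i * b * n i ∈ B ∨ DC B (n i) (n i * b * n i)) ∧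
    (∀ i, 2 ≤ q i ∧ q i * Nat.card {b : B // (n i)⁻¹ * b * n i ∈ B} = Nat.card B) ∧
    (∀ i j, i ≠ j → ∃ w : Q, (∀ x, PB B ((alt i j (m i j)).map n) x → DC B w x) ∧
      ∀ x, PB B ((alt j i (m i j)).map n) x → DC B w x) ∧
    Subgroup.closure ((B : Set Q) ∪ Set.range n) = ⊤ ∧
    Typ m q (Nat.card Q) ∧
    (∀ i, ∃ R : Subgroup Q, R ≤ B ∧ STS R ∧ Nat.card R ≤ q i ^ a ∧
      ∀ b ∈ B, ∃ r ∈ R, (n i)⁻¹ * (r⁻¹ * b) * n i ∈ B) ∧
    ∃ (k : ℕ) (Lt At : Fin k → Subgroup Q), (∀ j, STS (Lt j) ∧ At j ≤ Lt j) ∧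
      (∀ i j, i < j → ∀ x ∈ At j, ∀ y ∈ Lt i, x * y * x⁻¹ ∈ Lt i) ∧ (⨆ j, At j) = B ∧
      ∏ j, Nat.card (Lt j) ≤ Nat.card Q ^ a

/-- LIE (interface). -/
def StLIE : Prop := ∀ (a : ℕ) (Q : Type) [Group Q] [Finite Q], LieBN a Q →
  ∃ k : ℕ, Mix Q k ∧ 2 ^ k ≤ Nat.card Q ^ (12 * a + 1)

end Pool.Agent.Helper70.BN
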