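import Pool.Agent.Helper70.BN.Def

/-!
# Project BN (MP_a2f62e_al): the class of groups, standard axioms of BN pairs

`LieT a Q`: the finite group `Q` has a BN pair `(B, N)` with generators `n_i` of `N` modulo `T = B ∩ N` and parameters
`q_i = |B : B ∩ n_i B n_i⁻¹|`, whose Weyl group `N/T` is the Weyl group of a crystallographic root system without triple
bonds, or which has rank two; and the two conditions (R), (T) on solvable subgroups, as in `LieBN`.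
-/

set_option autoImplicit false

namespace Pool.Agent.Helper70.BN

/-- BN pair (Tits system): `B` and `N` generate `Q`, `T = B ∩ N` is normal in `N`, the `n_i` (with `T`) generate `N`, are
involutions modulo `T`, `n_i B w ⊆ B w B ∪ B n_i w B` for `w ∈ N`, and `q_i = |B : B ∩ n_i B n_i⁻¹| ≥ 2` -/
structure BNpair {Q : Type} [Group Q] {l : ℕ} (B N : Subgroup Q) (n : Fin l → Q) (q : Fin l → ℕ) : Prop where
  gen : B ⊔ N = ⊤
  norm : ∀ x ∈ N, ∀ t ∈ B, t ∈ N → x * t * x⁻¹ ∈ B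
  mem : ∀ i, n i ∈ N
  genN : Subgroup.closure (((B ⊓ N : Subgroup Q) : Set Q) ∪ Set.range n) = N
  sq : ∀ i, n i * n i ∈ B
  ax : ∀ i, ∀ b ∈ B, ∀ w ∈ N, DC B w (n i * b * w) ∨ DC B (n i * w) (n i * b * w)
  par : ∀ i, 2 ≤ q i ∧ q i * Nat.card {b : B // (n i)⁻¹ * b * n i ∈ B} = Nat.card B

/-- The Weyl group: the `n_i` modulo `B` multiply like the simple reflections of a crystallographic root system without
triple bonds, or the rank is two (and `n_i`, `n_j` differ modulo `B`) -/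
def Weyl {Q : Type} [Group Q] {l : ℕ} (B : Subgroup Q) (n : Fin l → Q) : Prop :=
  (∃ (A : Fin l → Fin l → ℤ) (d : Fin l → ℤ) (Φ : Finset (Fin l → ℤ)), RS A d Φ ∧
    ∀ w : List (Fin l), (w.map n).prod ∈ B ↔ ∀ v, wa A w v = v) ∨
  ∃ i j : Fin l, i ≠ j ∧ (∀ k, k = i ∨ k = j) ∧ n i * n j ∉ B

/-- the class of groups -/
def LieT (a : ℕ) (Q : Type) [Group Q] : Prop :=
  ∃ (l : ℕ) (B N : Subgroup Q) (n : Fin l → Q) (q : Fin l → ℕ), BNpair B N n q ∧ Weyl B n ∧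
    (∀ i, ∃ R : Subgroup Q, R ≤ B ∧ STS R ∧ Nat.card R ≤ q i ^ a ∧
      ∀ b ∈ B, ∃ r ∈ R, (n i)⁻¹ * (r⁻¹ * b) * n i ∈ B) ∧
    ∃ (k : ℕ) (Lt At : Fin k → Subgroup Q), (∀ j, STS (Lt j) ∧ At j ≤ Lt j) ∧
      (∀ i j, i < j → ∀ x ∈ At j, ∀ y ∈ Lt i, x * y * x⁻¹ ∈ Lt i) ∧ (⨆ j, At j) = B ∧
      ∏ j, Nat.card (Lt j) ≤ Nat.card Q ^ a

end Pool.Agent.Helper70.BN
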