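import Pool.Agent.Helper70.BN.Def
import Pool.Agent.Helper70.ML.St2

/-!
# Project BN (MP_a2f62e_al), part 2: from the group to the Hecke algebra, cost

State: a function `f : G → ℝ`; `L g f` is its left translate, a lazy step is `lz g p f = (1 - p) f + p L g f`. `avg B f` is the average of
the `L b f`, `b ∈ B`. On functions with `B ≤ stab f` the operators `T_i f = q_i avg B (L n_i f)` satisfy the relations of the
Hecke algebra, and `(c + T_i) f / (c + q_i)` is reached by one lazy step and averaging over `R_i`.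
-/

set_option autoImplicit false

namespace Pool.Agent.Helper70.BN

open Pool.Agent.Helper75.MX Pool.Agent.Helper70.ML

/-- average over a subgroup -/
noncomputable def avg {G : Type} [Group G] (B : Subgroup G) (f : G → ℝ) : G → ℝ :=
  (1 / (Nat.card B : ℝ)) • ∑ᶠ b : B, L (b : G) f

/-- BAVG. Averages. PROOF. `∑ᶠ b : B` is a finite sum (`finsum_eq_sum_of_fintype`, `Fintype.ofFinite`). (1) `L x (L b f) = L (x b) f`
(`L_mul`), substitution `b ↦ x⁻¹ b` (`Equiv.sum_comp`). (2) all terms are `f`. (3) linearity of `L`. (4) substitution. (5) `L y (L b f) =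
L (y b) f`. (6) the map `R × D → B`, `(r, d) ↦ r d`, `D = B ∩ stab f`; or: let `h = avg R f`. For `b ∈ B`: `b = r d` with `d ∈ stab f`, so
`L b f = L r f`. The average `avg B f = avg B (avg R f)` (by (4): `avg B (L r f) = avg B f`, `r ∈ R ≤ B`), and `avg R f` is fixed by `B`:
for `b ∈ B`, `x ∈ R`: `b x = r' d'` with `r' ∈ R`, `d' ∈ D`; the map `x ↦ r'` induces a bijection of the cosets `x (R ∩ D)`; simplest: compare
the sums as orbit sums: the orbit `{L b f : b ∈ B}` equals `{L r f : r ∈ R}`, and every element of the orbit occurs equally often in both sums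
(`|B|/|orbit|` and `|R|/|orbit|` times: the fibres are cosets of the stabiliser of `f`). -/
def StBAVG : Prop := ∀ (G : Type) [Group G] [Finite G] (B : Subgroup G),
  (∀ f : G → ℝ, B ≤ stab (avg B f)) ∧ (∀ f : G → ℝ, B ≤ stab f → avg B f = f) ∧
  (∀ f h : G → ℝ, avg B (f + h) = avg B f + avg B h) ∧ (∀ (c : ℝ) (f : G → ℝ), avg B (c • f) = c • avg B f) ∧
  (∀ b ∈ B, ∀ f : G → ℝ, avg B (L b f) = avg B f) ∧
  (∀ (y : G) (f : G → ℝ), L y (avg B f) = (1 / (Nat.card B : ℝ)) • ∑ᶠ b : B, L (y * b) f) ∧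
  (∀ (R : Subgroup G) (f : G → ℝ), R ≤ B → (∀ b ∈ B, ∃ r ∈ R, r⁻¹ * b ∈ stab f) → avg B f = avg R f)

/-- BQUAD. The quadratic relation. PROOF. `avg B (L n (avg B (L n f))) = (1/|B|) ∑_{b ∈ B} avg B (L (n b n) f)` (BAVG (6), linearity). If
`n b n ∈ B` the term is `avg B f = f`; otherwise `n b n = b₁ n b₂`, `L (b₁ n b₂) f = L b₁ (L n f)` (as `b₂ ∈ stab f`), the term is
`avg B (L n f)`. (If both hold, `n ∈ B`, the values agree.) `n b n ∈ B ↔ n⁻¹ b n ∈ B`: hmm, `n b n ∈ B ↔ b ∈ n⁻¹ B n⁻¹ = n (n⁻² B n⁻¹) =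
n B n⁻¹` since `n² ∈ B`; and `n⁻¹ b n ∈ B ↔ b ∈ n B n⁻¹`. So the number of `b` with `n b n ∈ B` is `|B|/q`, and the average is
`(1/q) f + (1 - 1/q) avg B (L n f)`. Multiply by `q²`. -/
def StBQUAD : Prop := ∀ (G : Type) [Group G] [Finite G] (B : Subgroup G) (n : G) (q : ℕ), n * n ∈ B →
  (∀ b ∈ B, n * b * n ∈ B ∨ DC B n (n * b * n)) → 1 ≤ q →
  q * Nat.card {b : B // n⁻¹ * b * n ∈ B} = Nat.card B → ∀ f : G → ℝ, B ≤ stab f →
  (q : ℝ) • avg B (L n ((q : ℝ) • avg B (L n f))) = (q : ℝ) • f + ((q : ℝ) - 1) • ((q : ℝ) • avg B (L n f))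

/-- composition of the operators `f ↦ avg B (L g f)` -/
noncomputable def tt {G : Type} [Group G] (B : Subgroup G) (gs : List G) (f : G → ℝ) : G → ℝ :=
  gs.foldr (fun g h => avg B (L g h)) f

/-- BBRD. Products of double cosets. PROOF. CLAIM: for all `gs` and all `y` with `DC B w (y x)` for all `x` with `PB B gs x`:
`avg B (L y (tt B gs f)) = avg B (L w f)`. Induction on `gs`. `gs = []`: `y = y 1 = b₁ w b₂`, `L y f = L b₁ (L w f)`, BAVG (5). `g :: gs`: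
`L y (avg B (L g h)) = (1/|B|) ∑_b L (y b g) h`, `h = tt B gs f` (BAVG (6)), and `avg B (L (y b g) h) = avg B (L w f)` by induction for
`y b g`: `PB B gs x → PB B (g :: gs) (b g x)`, so `DC B w (y b g x)`. The average of equal functions. Finally `tt B (g :: gs) f =
avg B (L g (tt B gs f))`: the CLAIM with `y = g` (`PB B (g :: gs) (1 g x)`). `gs = []`: `DC B w 1`, `f = avg B f = avg B (L w f)` (CLAIM,
`y = 1`). -/
def StBBRD : Prop := ∀ (G : Type) [Group G] [Finite G] (B : Subgroup G) (gs : List G) (w : G),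
  (∀ x, PB B gs x → DC B w x) → ∀ f : G → ℝ, B ≤ stab f → tt B gs f = avg B (L w f)

/-- the space of the left `B`-invariant functions -/
def VB {G : Type} [Group G] (B : Subgroup G) : Submodule ℝ (G → ℝ) where
  carrier := {f | B ≤ stab f}
  add_mem' := by
    intro f h hf hh x hx
    have h1 := mem_stab.1 (hf hx)
    have h2 := mem_stab.1 (hh hx)
    exact mem_stab.2 (by rw [L_add, h1, h2])
  zero_mem' := fun x _ => mem_stab.2 (L_zero x)
  smul_mem' := by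
    intro c f hf x hx
    exact mem_stab.2 (by rw [L_smul, mem_stab.1 (hf hx)])

/-- BHEC. The Hecke algebra. PROOF. `T i f = q_i • avg B (L (n i) f)` maps `VB B` to itself (BAVG (1), `Submodule.smul_mem`), is linear
(BAVG (3), (4), `L_add`, `L_smul`). Quadratic relation: BQUAD. Braid relations: for a word `u` one has
`((u.map T).prod f : G → ℝ) = (∏ q_i) • tt B (u.map n) f` (induction on `u`), for `u = alt i j m` and `alt j i m` both equal
`c • avg B (L w f)` (BBRD); the scalars: if `m` is even both words have the same letters up to order. `m` odd: `q_i = q_j` is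
NOT assumed here, but `Typ` gives it: hypothesis `hq`. -/
def StBHEC : Prop := ∀ (G : Type) [Group G] [Finite G] (B : Subgroup G) (l : ℕ) (n : Fin l → G) (q : Fin l → ℕ)
  (m : Fin l → Fin l → ℕ), (∀ i, n i * n i ∈ B) →
  (∀ i, ∀ b ∈ B, n i * b * n i ∈ B ∨ DC B (n i) (n i * b * n i)) →
  (∀ i, 2 ≤ q i ∧ q i * Nat.card {b : B // (n i)⁻¹ * b * n i ∈ B} = Nat.card B) →
  (∀ i j, i ≠ j → ∃ w : G, (∀ x, PB B ((alt i j (m i j)).map n) x → DC B w x) ∧
    ∀ x, PB B ((alt j i (m i j)).map n) x → DC B w x) →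
  (∀ i j, i ≠ j → Odd (m i j) → q i = q j) →
  ∃ T : Fin l → Module.End ℝ (VB B), (∀ i (f : VB B), ((T i f : VB B) : G → ℝ) = (q i : ℝ) • avg B (L (n i) (f : G → ℝ))) ∧
    Hecke m q T

/-- BSTP. One rung of the ladder. PROOF. `p = q/(c + q)`: `lz n p f = (1 - p) f + p L n f` (one step), then the average over `R` (`StAVG`,
`k` steps): `avg R` is linear, `avg R f = f` (`R ≤ B ≤ stab f`), `avg R (L n f) = avg B (L n f)` by BAVG (7) for `L n f`
(`r⁻¹ b ∈ stab (L n f) ↔ n⁻¹ (r⁻¹ b) n ∈ stab f`, `mem_stab_L`). `(1 - p) f + p avg B (L n f)` is the claimed function. -/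
def StBSTP : Prop := ∀ (G : Type) [Group G] [Finite G] (B R : Subgroup G) (n : G) (q c : ℝ) (k : ℕ), 0 < q → 0 < c → R ≤ B →
  Mix R k → (∀ b ∈ B, ∃ r ∈ R, n⁻¹ * (r⁻¹ * b) * n ∈ B) → ∀ f : G → ℝ, B ≤ stab f →
  Reach (1 + k) f ((c + q)⁻¹ • (c • f + q • avg B (L n f)))

/-- BFOL. The whole ladder. PROOF. Induction on `ws`: `ws = []`: `PR T [] = 1`, `lam = 1`. `(i, c) :: ws`: by induction
`Reach s f (lam • PR T ws f)`, then the step for `f' = lam • PR T ws f ∈ VB B`: `(c + q_i)⁻¹ • (c • f' + T_i f') = (c + q_i)⁻¹ lam • (c + T_i) (PR T ws f)`.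
(`Reach.trans`, the sums of the costs.) -/
def StBFOL : Prop := ∀ (G : Type) [Group G] [Finite G] (B : Subgroup G) (l : ℕ) (q : Fin l → ℕ) (κ : Fin l → ℕ)
  (T : Fin l → Module.End ℝ (VB B)), (∀ i, 1 ≤ q i) →
  (∀ i (c : ℝ), 0 < c → ∀ f : VB B,
    Reach (1 + κ i) (f : G → ℝ) ((c + (q i : ℝ))⁻¹ • (c • (f : G → ℝ) + ((T i f : VB B) : G → ℝ)))) →
  ∀ ws : List (Fin l × ℝ), (∀ p ∈ ws, 0 < p.2) → ∀ f : VB B, ∃ lam : ℝ, 0 < lam ∧
    Reach ((ws.map fun p => 1 + κ p.1).sum) (f : G → ℝ) (lam • ((PR T ws f : VB B) : G → ℝ))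

/-- BTOR. Invariance under `B`. PROOF. The functions `f_k = f`, `f_j = avg (L_j) f_{j+1}`, `F = f_0` (StAVG; order of application: `L_{k-1}` first,
`L_0` last). CLAIM: `A_j ≤ stab f_i` for `i ≤ j`: downward induction on `i`: `f_j` is invariant under `L_j ≥ A_j` (BAVG (1)); `f_i = avg (L_i) f_{i+1}`,
`i < j`, `x ∈ A_j` normalises `L_i` (also `x⁻¹ ∈ A_j`): `L x (L y h) = L (x y x⁻¹) (L x h) = L (x y x⁻¹) h`, so `L x (avg (L_i) h) = avg (L_i) h` (substitution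
in the sum) for `h = f_{i+1}`. So `B = ⨆ A_j ≤ stab F` (`iSup_le`). Induction on `k` with `Fin (k+1)` (drop `L_0`: `Fin.succ`) is convenient. -/
def StBTOR : Prop := ∀ (G : Type) [Group G] [Finite G] (k : ℕ) (Lt At : Fin k → Subgroup G) (κ : Fin k → ℕ),
  (∀ j, Mix (Lt j) (κ j) ∧ At j ≤ Lt j) → (∀ i j, i < j → ∀ x ∈ At j, ∀ y ∈ Lt i, x * y * x⁻¹ ∈ Lt i) →
  ∀ f : G → ℝ, ∃ F : G → ℝ, Reach (∑ j, κ j) f F ∧ (⨆ j, At j) ≤ stab F

/-- BINV. PROOF. (1) `∑_x (L n f x - f x)² = 2 ∑ f² - 2 ∑_x f x · (L n f) x` (`∑ (L n f)² = ∑ f²`); `∑_x f x · avg B (L n f) x = (1/|B|) ∑_b ∑_x f x (L n f)(b⁻¹ x)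
= (1/|B|) ∑_b ∑_y f (b y) (L n f) y = ∑_y f y (L n f) y` as `f (b y) = f y`. The left side is `∑ f²` by hypothesis. So `L n f = f`. (2) `stab f` contains `B`
and all `n i`. (3) lazy steps preserve `∑_x f x` (induction on the list), so `∑ f = 1`; `stab f = ⊤` gives `f x = f 1` for all `x`
(`L x f = f` at `x`... `f (x⁻¹ x) = f x`), so `f = uni G`. -/
def StBINV : Prop := (∀ (G : Type) [Group G] [Finite G] (B : Subgroup G) (n : G) (f : G → ℝ), B ≤ stab f →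
    avg B (L n f) = f → n ∈ stab f) ∧
  (∀ (G : Type) [Group G] [Finite G] (k : ℕ) (f : G → ℝ) (lam : ℝ), Reach k (dlt G) (lam • f) → 0 < lam → stab f = ⊤ → Mix G k)

/-- BCST. Costs. PROOF. (1) Induction on `ws` for the statement `2 ^ ∑ (1 + κ) ≤ (∏ q) ^ (6 a + 1)`: `2 ^ (1 + κ i) ≤ 2 q_i ^ (6 a) ≤
q_i ^ (6 a + 1)`; then `Nat.pow_le_pow_left`. (2) `2 ^ ∑ κ = ∏ 2 ^ κ j ≤ ∏ (x j) ^ 6 = (∏ x j) ^ 6 ≤ (K ^ a) ^ 6`. -/
def StBCST : Prop := (∀ (a K l : ℕ) (q κ : Fin l → ℕ), (∀ i, 2 ≤ q i) → (∀ i, 2 ^ κ i ≤ q i ^ (6 * a)) →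
    ∀ ws : List (Fin l × ℝ), ((ws.map Prod.fst).map q).prod ≤ K → 2 ^ (ws.map fun p => 1 + κ p.1).sum ≤ K ^ (6 * a + 1)) ∧
  ∀ (a K k : ℕ) (x κ : Fin k → ℕ), (∀ j, 2 ^ κ j ≤ x j ^ 6) → ∏ j, x j ≤ K ^ a → 2 ^ (∑ j, κ j) ≤ K ^ (6 * a)

/-- LIEP. PROOF of StLIE. Take the data of `LieBN`. `STS R` and `Helper75.MX.main` (`TS`, solvable): `κ i` with `Mix R_i (κ i)` and
`2 ^ κ i ≤ wt |R_i| ≤ |R_i| ^ 6` (compare `solvable_bound` in `Helper75/MX/Final.lean`) `≤ q_i ^ (6 a)`; `κ' j` for `L_j`: `2 ^ κ' j ≤ |L_j| ^ 6`.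
BTOR for `dlt Q`: `F` with `B ≤ stab F`, cost `∑ κ' j`. The condition `Odd (m i j) → q i = q j` for `i ≠ j`: from `Typ`: first case:
`m i j = mm A i j ∈ {2, 3, 4}`, odd means `3`; second case: `{i, j}` are the two indices of `Typ`, `m j i = m i j`. BHEC: `T`; LADU: `ws`;
`X = PR T ws`; BSTP, BFOL: `Reach (∑ (1 + κ i_k)) F (lam • X F)`. `T_i (X F) = q_i X F`, i.e. `avg B (L n_i (X F)) = X F`, BINV (1):
`n_i ∈ stab (X F)`; `stab = ⊤` by the generation, BINV (2): `Mix Q k`, `k = ∑ κ' + ∑ (1 + κ)`, BCST with `K = |Q|`. -/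
def StLIEP : Prop := StLADU → StAVG → StBAVG → StBHEC → StBSTP → StBFOL → StBTOR → StBINV → StBCST → StLIE

end Pool.Agent.Helper70.BN
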