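import Pool.Agent.Helper70.BN.Def2

/-!
# Project BN (MP_a2f62e_al), part 3: BN pairs

From the standard axioms of a BN pair (`LieT`) to the properties listed in `LieBN`. `nw n u` is the product of the `n_i` of the word
`u`; `x ≡ y` means `x⁻¹ y ∈ B` (for `x, y ∈ N`: `x T = y T`, `T = B ∩ N` normal in `N`); `Geo` = words of minimal length.
-/

set_option autoImplicit false

namespace Pool.Agent.Helper70.BN

/-- the product of a word -/
def nw {Q : Type} [Group Q] {l : ℕ} (n : Fin l → Q) (u : List (Fin l)) : Q := (u.map n).prod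

/-- words of minimal length in their class modulo `B` -/
def Geo {Q : Type} [Group Q] {l : ℕ} (B : Subgroup Q) (n : Fin l → Q) (u : List (Fin l)) : Prop :=
  ∀ v : List (Fin l), (nw n v)⁻¹ * nw n u ∈ B → u.length ≤ v.length

/-- NBRU. Different double cosets (Bruhat decomposition).
PROOF. `nw u ∈ N`; every `x ∈ N` is `nw u * t`, `t ∈ T` (by `genN`, closure induction: `T` is normal in `N`, `n_i⁻¹ = n_i (n_i n_i)⁻¹`, `n_i n_i ∈ T`).
On `N`, `x ≡ y` is an equivalence relation compatible with left and right multiplication by elements of `N`. Let `ℓ(x)` be the least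
length of `u` with `nw u ≡ x`. CLAIM (induction on `d`): `x, y ∈ N`, `y ∈ B x B`, `ℓ(x) ≤ ℓ(y)`, `ℓ(x) = d` imply `x ≡ y`. `d = 0`: `x ∈ T`, so
`y ∈ B`, `x⁻¹ y ∈ B`. Step: `x ≡ n_i x'`, `ℓ(x') = d - 1`; `n_i x' ∈ B y B`, so `x' ∈ n_i⁻¹ B y B ⊆ n_i B y B ⊆ B y B ∪ B n_i y B` (`ax`). If `x' ∈ B y B`
(equivalently `y ∈ B x' B`): `ℓ(x') < ℓ(y)`, so by induction `x' ≡ y`, `ℓ(y) = d - 1`, contradiction. If `x' ∈ B n_i y B`: whichever of `ℓ(x')`,
`ℓ(n_i y)` is smaller it is `≤ d - 1`, by induction (for the smaller one; state the CLAIM for `min (ℓ x) (ℓ y) ≤ d`) `x' ≡ n_i y`, so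
`x ≡ n_i x' ≡ n_i n_i y ≡ y` (as `n_i n_i y = y (y⁻¹ n_i n_i y)`, `y⁻¹ (n_i n_i) y ∈ T`). -/
def StNBRU : Prop := ∀ (Q : Type) [Group Q] (l : ℕ) (B N : Subgroup Q) (n : Fin l → Q) (q : Fin l → ℕ),
  BNpair B N n q → ∀ x ∈ N, ∀ y ∈ N, DC B x y → x⁻¹ * y ∈ B

/-- NPRD. Products of double cosets.
PROOF. `n_i ∉ B`: otherwise `{b : B // n_i⁻¹ b n_i ∈ B}` is everything and `q_i = 1` (`Nat.card B ≠ 0`). Induction on `u` from the right
(`List.reverseRecOn`). `u = []`: `n_i b = n_i b 1`; want `n_i b ∈ B n_i B`: clear. `u = u' ++ [t]`: `u'` is `Geo` (a shorter word for `nw u'` gives one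
for `nw u`; `≡` is compatible with right multiplication by `n_t ∈ N`), and if `v ≡ n_i nw u'` then `v ++ [t] ≡ n_i nw u`, so `|u| ≤ |v| + 1`,
`|u'| ≤ |v|`. By induction `n_i b nw u' ∈ B n_i nw u' B` for all `b ∈ B`. Let `b ∈ B` with `n_i b nw u ∉ B (n_i nw u) B`; by `ax` `n_i b nw u ∈ B nw u B`. So
`n_i b nw u' ∈ B nw u B n_t⁻¹`. The inverse of `ax` (for `t`, `w = (nw u)⁻¹`): `nw u B n_t⁻¹ ⊆ B nw u B ∪ B nw u n_t⁻¹ B`, and `nw u n_t⁻¹ = nw u'`. So
`B n_i nw u' B` meets, hence equals, `B nw u B` or `B nw u' B`. By NBRU `n_i nw u' ≡ nw u = nw u' n_t` or `n_i nw u' ≡ nw u'`. The second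
gives (right multiplication by `(nw u')⁻¹`) `n_i ∈ B`, contradiction. The first: `n_i nw u = n_i nw u' n_t ≡ n_i (n_i nw u')`
(`n_i nw u' ≡ nw u' n_t` gives `n_i (n_i nw u') ≡ n_i nw u' n_t`) `≡ nw u'`, so `v = u'` is a word for `n_i nw u` with `|v| < |u|`, contradiction to
the hypothesis. -/
def StNPRD : Prop := ∀ (Q : Type) [Group Q] [Finite Q] (l : ℕ) (B N : Subgroup Q) (n : Fin l → Q) (q : Fin l → ℕ),
  BNpair B N n q → (∀ i, n i ∉ B) ∧ ∀ (u : List (Fin l)) (i : Fin l), Geo B n u →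
    (∀ v, (nw n v)⁻¹ * nw n (i :: u) ∈ B → u.length ≤ v.length) → ∀ b ∈ B, DC B (nw n (i :: u)) (n i * b * nw n u)

/-- NGEO. Words of minimal length.
PROOF. (1) A tail of a `Geo` word is `Geo` (`≡` is compatible with left multiplication by `n_i`). (2) Induction on `u`: `i :: u`:
`x = b n_i y`, `y = b₁ nw u b₂`; NPRD: `n_i b₁ nw u ∈ B nw (i :: u) B`. (3) Induction: let `C u = {x // DC B (nw u) x}`, `D = {b ∈ B : n_i⁻¹ b n_i ∈ B}`. The
map `B × C u → C (i :: u)`, `(b, y) ↦ b n_i y` is well defined (NPRD), surjective (`b nw (i :: u) b' = b n_i (nw u b')`), and its fibre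
over `b n_i y` is in bijection with `D`: `b' n_i y' = b n_i y`, `c = b'⁻¹ b`: `y' = (n_i⁻¹ c n_i) y`. If `n_i⁻¹ c n_i ∉ B` then (`ax` with `w = n_i`, and
`n_i⁻¹ = (n_i n_i)⁻¹ n_i`) `n_i⁻¹ c n_i ∈ B n_i B`, so `y' ∈ B n_i B y ⊆ B nw (i :: u) B` by NPRD, so `B nw u B = B nw (i :: u) B`, by NBRU
`nw u ≡ n_i nw u`, `n_i ∈ B`, contradiction. So `|C (i :: u)| |D| = |B| |C u|`, `|B| = q_i |D|`. -/
def StNGEO : Prop := ∀ (Q : Type) [Group Q] [Finite Q] (l : ℕ) (B N : Subgroup Q) (n : Fin l → Q) (q : Fin l → ℕ),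
  BNpair B N n q → ∀ u : List (Fin l), Geo B n u →
    (∀ x, PB B (u.map n) x → DC B (nw n u) x) ∧
    Nat.card {x : Q // DC B (nw n u) x} = Nat.card B * (u.map q).prod

/-- NCRY. The crystallographic case.
PROOF. `(nw v)⁻¹ ≡ nw v.reverse` (`n_i⁻¹ ≡ n_i`), so `(nw v)⁻¹ nw u ∈ B ↔ nw (v.reverse ++ u) ∈ B ↔ wa A (v.reverse ++ u) = id ↔ wa A v = wa A u`
(`wa_append`, `wa_reverse`, `reverse_wa`). `u` reduced, `v ≡ u`: RRED (2) `v'` reduced, equivalent to `v`, `|v'| ≤ |v|`; RRED (4): `|v'| = |u|`. The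
second claim: RTWO. `alt i j m` is reduced by the explicit lists of RTWO (`al_nonneg`). -/
def StNCRY : Prop := ∀ (Q : Type) [Group Q] (l : ℕ) (B N : Subgroup Q) (n : Fin l → Q) (q : Fin l → ℕ),
  BNpair B N n q → ∀ (A : Fin l → Fin l → ℤ) (d : Fin l → ℤ) (Φ : Finset (Fin l → ℤ)), RS A d Φ →
  (∀ w : List (Fin l), (w.map n).prod ∈ B ↔ ∀ v, wa A w v = v) →
  (∀ u, Red A u → Geo B n u) ∧ (∀ i j, i ≠ j → Red A (alt i j (mm A i j))) ∧
    ∀ i j, i ≠ j → (nw n (alt i j (mm A i j)))⁻¹ * nw n (alt j i (mm A i j)) ∈ B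

/-- NDIH. Rank two.
PROOF. Let `m` be the least positive integer with `(n_i n_j) ^ m ∈ B` (`Q` is finite); `m ≥ 2` as `n_i n_j ∉ B`. Work modulo `≡`
(`N/T`, `s = n_i`, `t = n_j`, `s² ≡ 1 ≡ t²`). `alt i j m ≡ alt j i m`: their quotient is `(st)^m` or `(ts)^m`. `Geo (alt i j m)`: let `v ≡ alt i j m`, `|v| < m`,
`|v|` minimal. Then `v` has no two equal neighbours (they could be cancelled), so `v = alt i j k` or `alt j i k`, `k < m`. In the first
case the common first `k` letters cancel: an alternating word of length `m - k` is `≡ 1`; in the second case `v.reverse ++ alt i j m` is an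
alternating word of length `k + m < 2 m` and `≡ 1`. So some alternating word of length `r`, `0 < r < 2m`, is `≡ 1`. `r` odd: it is
`x y x⁻¹` modulo `≡` with `y = n_i` or `n_j`, so `n_i ∈ B` or `n_j ∈ B`, contradiction (NPRD (1)). `r = 2p` even: `(st)^p ≡ 1` or `(ts)^p ≡ 1`, `0 < p < m`,
contradiction. -/
def StNDIH : Prop := ∀ (Q : Type) [Group Q] [Finite Q] (l : ℕ) (B N : Subgroup Q) (n : Fin l → Q) (q : Fin l → ℕ),
  BNpair B N n q → (∀ i, n i ∉ B) → ∀ i j : Fin l, i ≠ j → (∀ k, k = i ∨ k = j) → n i * n j ∉ B →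
  ∃ m : ℕ, 2 ≤ m ∧ Geo B n (alt i j m) ∧ Geo B n (alt j i m) ∧ (nw n (alt i j m))⁻¹ * nw n (alt j i m) ∈ B

/-- NSTD. PROOF. `m i j = mm A i j` in the first case of `Weyl`, the constant `m` of NDIH in the second case. `n_i b n_i ∈ B ∪ B n_i B`: `ax`
with `w = n_i`, `n_i n_i ∈ B`. Double cosets: `w = nw (alt i j m)`, NGEO (1), and `DC B w' = DC B w` if `w⁻¹ w' ∈ B`. Generation: `B ⊔ N = ⊤`,
`N` is generated by `B ⊓ N` and the `n_i`. `Typ m q |Q|`: for `Geo` words `|B| ∏ q ≤ |Q|`, `|B| ≥ 1` (NGEO (2)); `m i j = 3` (or odd): `alt i j m` and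
`alt j i m` have the same double coset, so `∏ q` is the same: `(q_i q_j)^k q_i = (q_j q_i)^k q_j`, `q_i = q_j`. (R), (T) are the same. -/
def StNSTD : Prop := ∀ (a : ℕ) (Q : Type) [Group Q] [Finite Q], LieT a Q → LieBN a Q

end Pool.Agent.Helper70.BN
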